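import Mathlib
import Pool.Agent.TH170.GS.Main
import Pool.Agent.TH170.GS.TB2
import Pool.Agent.Y1.KN.All
import Pool.Agent.Y1.KN.Use
import Pool.Agent.R900.BB.Main

/-!
# Cohomologically trivial cycles orthogonal to fibral cycles: fibres generated by abelian varieties with
# almost all slope types of CM fields

Let `X` be a smooth proper variety of dimension `d` over a number field `E`, and let `𝒳` be a regular
proper flat model of `X` over the ring of integers, with the fibres `Y v` over the closed points `v`;
let `i + a = d + 1`.

**Theorem.** Suppose that for all of the finitely many `v` for which `Y v` is not smooth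

* the conjecture of the monodromy weight filtration holds for `H^(2 i - 1)(X)` at `v`; this is known if
  `X` is an abelian variety, a product of curves, a complete intersection in a projective space
  (Scholze), or if `i = 1` or `i = d`; and
* the scheme `Y v` (over a finite field) belongs to the class `𝒢` described below,
  or it satisfies the conjecture of Tate, with semisimplicity, for cycles of dimension `a`.

Then all cohomologically trivial cycles in `Ch^i(X)` extend to cycles in `Ch^i(𝒳)` that are orthogonal
to all cycles in `Ch^a(𝒳)` which are supported in closed fibres: Q1 has a positive answer for `𝒳` and `i`.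

The class `𝒢` depends on a family of CM types as follows. The theorem says that Q1 has a positive answer
for all these `𝒳` and all `i`, for all families of CM types with few exceptions.

An abelian variety over the field with `p ^ a` elements is modelled by `RedAV` (Honda, Tate): a
finite product of CM types `(E i, Φ i)` with Weil numbers `π i ∈ E i` that satisfy the formula of
Shimura and Taniyama; its cohomology of degree `n`, with coefficients in an algebraically closed field
`Ω`, consists of the alternating `n`-forms on `Ω ⊗ H_1`, on which the Frobenius endomorphism acts by
`π`. We fix an isomorphism `ν` of the algebraic closure of `ℚ_p` with `ℂ`; it defines a `p`-adic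
valuation of `ℂ`, with the value one at `p`.

Let `K i` be finitely many CM fields, of degrees `2 g i`, that are pairwise independent: for `i ≠ k`
and all complex embeddings `φ` of `K i` and `ψ` of `K k` some automorphism of `ℂ` is the identity on
`φ (K i)` and the complex conjugation on `ψ (K k)` (this is no condition for one field). Nothing is
assumed about their Galois groups. Let `M i` be functions with nonzero integral values, all of which
divide `n i`, on the complex embeddings of `K i`, invariant under complex conjugation. A CM type
`Φ i` of `K i` (there are `2 ^ (g i)` types), `M i` and a real number `κ i ≠ 0` prescribe the slopes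
`(a + κ M) / 2` (at the embeddings in `Φ i`) and `(a - κ M) / 2` (outside of `Φ i`) of a Weil number in
`K i`; `M = 1`, `κ = a` is the ordinary case.

There are `2 ^ (∑ i, g i)` families of CM types `Φ i` of the fields `K i`. For such a family let `𝒞`
(`OfTypes`) be the class of the abelian varieties `Y` each of whose factors is supersingular or has a
Frobenius endomorphism some power of which is, for some `i`, a Weil number in `K i` with the slopes
prescribed by `Φ i`, `M i` and some real number `κ i ≠ 0` (which depends only on `Y` and `i`).

`Homology Ω V` are data of motivic homology `M X n j = H_n^M(X, ℚ(j)) = CH_j(X, n - 2 j) ⊗ ℚ` (higher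
Chow groups) and of `ℓ`-adic homology `E X n j = H_n(X, ℚ_ℓ(j))` of schemes `X : V` of finite type over
finite fields, with the Frobenius and the regulator. Let `𝒢` (`Generated`) be the smallest class of
schemes that contains those with the homology groups of abelian varieties in `𝒞`
(`IsAbelianOfTypes`), that is closed under direct summands of finite sums of twists of motives, and
that contains all of a closed subscheme `Z` of `X`, `X` and `X ∖ Z` if it contains two of them. It
contains for instance all products of curves with Jacobian varieties in `𝒞` and of open subsets of such
curves, and their symmetric powers.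

Formulation. `A` is `CH^i(𝒳) ⊗ ℚ`, `triv` are the cycles whose restriction to `X` is cohomologically
trivial, `push v` is the map `CH_a(Y v) → CH^i(𝒳)`, and `num v x z` is the intersection number of `x`
with `z` in `CH_i(Y v)`. Since `log N(v) * num v x z` is the value of the pairing of Gillet and Soulé, and
`Ch^a_fin(𝒳)` is generated by the images of the groups `CH_i(Y v)`, the cycle `y` in the theorem, which has
the same restriction to `X` as `x`, is in the orthogonal complement of `Ch^a_fin(𝒳)`. `HasForm` are the
properties of the intersection form of `Y v`; its last property, that `num v x z` is zero if the class of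
`z` is zero in `H^(2 a)(Y v)` and `x` is in `triv`, is derived from the localisation sequence, the
projection formula and the weight-monodromy conjecture in `hasForm`, `Pool/Agent/R900/BB/Main.lean`
(compare the file `TateFibres`, where all this is part of the statement). For smooth `Y v` the
intersection numbers `num v x z` are zero for all `x` in `triv` by smooth specialization.

The case of models with good reduction everywhere is listed as known. For `i = 1` and `i = d` the
assertion is classical. In general it was expected to follow from the conjecture of Tate for the homology
of the fibres and the weight-monodromy conjecture (Beilinson). The injectivity of cycle class maps and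
the finite generation of the Chow groups of the fibres are not needed.

The theorem bounds the number of the exceptional families: it is at most
`2 ^ (∑ i, g i) * ∑ i, C * (n i) ^ 2 * rate (K i) (g i) (q i)`, with an absolute constant `C`. Here
`q i` is any prime factor of `g i` (or `q i = 1`), and `rate K g q` is `(1 + log (2 g)) ^ 16` times
the smaller of the numbers

* `W (K) / √g`, where (second part of the theorem, `WeightEstimate`) `W (K) ≤ N ^ 2 * D ^ (1 / 4)`;
  `N` is the number of the CM subfields of `K` (with `K`) and `D` is the largest degree of a CM
  subfield of `K` that is normal over `ℚ` with a nonabelian Galois group (`D = 1` if there are none);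
* `√g / q`.

So the exceptional types are a proportion `O (n ^ 2 * g ^ (-1 / 4) * (log g) ^ 16)` of all types of
all CM fields with a bounded number of CM subfields, and `O (n ^ 2 * g ^ (-δ) * (log g) ^ 16)` of the
types of all CM fields `K`, with any number of subfields, whose degree is divisible by a prime number
`q ≥ g ^ (1 / 2 + δ)`. For the number `W (K)` (`subfieldWeight K`) and the proof of the bound see the
starting result `MP_ee618e_ag.AllCMFields` (by helper1 and others of the team).

Properties of the theory of cycles that are used for the abelian varieties (`IsChow`, `IsMotivic`):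
Poincaré duality, the formal properties of correspondences, the nilpotence of homologically trivial
correspondences (Kimura), the operation of the Frobenius endomorphism on higher Chow groups, the
vanishing of the higher rational `K`-groups of a finite field (Quillen), and the theorem of Tate on
divisors. The passage from the Tate conjecture to all degrees and to the class `𝒢` is due to Soulé,
Geisser, Kahn and Jannsen and was formalized in the starting files.
-/

set_option autoImplicit false

namespace Pool.Agent.Results.MP_62d77c_ag.FibresAllCMFields

open NumberField Module Pool.Agent.H204R3.CM Pool.Agent.H977R3.CM Pool.Agent.TH170 Pool.Agent.Y1.KN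
  Pool.Agent.W495.TA Pool.Agent.W495.FM Pool.Agent.R900.BB

/-- Orthogonal extension of cohomologically trivial cycles for all models all whose fibres which are not
smooth are generated by abelian varieties with the slope types `Φ`, or satisfy the conjecture of Tate
with semisimplicity for the cycles of dimension `a`. -/
def Holds {p : ℕ} [Fact p.Prime] (ν : PadicAlgCl p ≃+* ℂ) {I : Type} (K : I → Type)
    [∀ i, Field (K i)] (M : ∀ i, (K i →+* ℂ) → ℤ) (Φ : ∀ i, Set (K i →+* ℂ)) : Prop :=
  ∀ (P : Type) (Ω V : P → Type) [∀ v, Field (Ω v)] [∀ v, IsAlgClosed (Ω v)]
    [∀ v, CharZero (Ω v)] (T : ∀ v, Homology (Ω v) (V v)), (∀ v, IsHomology (T v)) →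
    ∀ (Y : ∀ v, V v) (i a : ℤ) (A : Type) [AddCommGroup A] [Module ℚ A]
      (push : ∀ v, (T v).M (Y v) (2 * a) a → A) (num : ∀ v, A → (T v).M (Y v) (2 * i) i → ℚ)
      (triv : A → Prop), (∀ v f x, triv x → triv (x + push v f)) → (∀ v, IsBilin ℚ (num v)) →
      (∀ v w, v ≠ w → ∀ f z, num w (push v f) z = 0) →
      ∀ bad : Set P, bad.Finite → (∀ v, v ∉ bad → ∀ x z, triv x → num v x z = 0) →
        (∀ v ∈ bad, HasForm (T v) (Y v) i a (num v) (push v) triv) →
        (∀ v ∈ bad, Generated (T v) (GS.IsAbelianOfTypes ν K M Φ (T v)) (Y v) ∨
          IsOnto (T v) (Y v) a) →
        ∀ x, triv x →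
          ∃ y, y - x ∈ Submodule.span ℚ (⋃ v, Set.range (push v)) ∧ ∀ v z, num v y z = 0

/-- The exceptional families of CM types. -/
def exceptionalFamilies {p : ℕ} [Fact p.Prime] (ν : PadicAlgCl p ≃+* ℂ) {I : Type} (K : I → Type)
    [∀ i, Field (K i)] (M : ∀ i, (K i →+* ℂ) → ℤ) : Set (∀ i, Set (K i →+* ℂ)) :=
  {Φ | (∀ i, IsCMType (Φ i)) ∧ ¬ Holds ν K M Φ}

theorem holds_of {p : ℕ} [Fact p.Prime] {ν : PadicAlgCl p ≃+* ℂ} {I : Type} (K : I → Type)
    [∀ i, Field (K i)] (M : ∀ i, (K i →+* ℂ) → ℤ) (Φ : ∀ i, Set (K i →+* ℂ))
    (h : ∀ Y : RedAV p ν, GS.OfTypes K M Φ Y → ∃ Z : RedAV p ν,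
      TH117.BL.HasElementaryRelations Z ∧ TH117.BL.IsPowersTimesSupersingular Z Y) :
    Holds ν K M Φ :=
  fun _ _ _ _ _ _ _ hT _ _ a _ _ _ _ _ _ htr hnum hne _ hbad hgood hcl hY _ hx =>
    exists_orthogonal hT htr hnum hne hbad hgood hcl (fun v hv => (hY v hv).elim
      (fun h' => ((GS.tb_types h (hT v) h').iso (hT v) a).1) id) hx

/-- **Orthogonal extension of cohomologically trivial cycles for almost all slope types of the fibres of
all CM fields with few CM subfields, and of all CM fields whose degree has a large prime factor.** -/
theorem result :
    (∃ C : ℝ, 0 ≤ C ∧ ∀ (p : ℕ) [Fact p.Prime] (ν : PadicAlgCl p ≃+* ℂ) (I : Type) [Fintype I]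
      (K : I → Type) [∀ i, Field (K i)] [∀ i, NumberField (K i)] [∀ i, IsCMField (K i)]
      (M : ∀ i, (K i →+* ℂ) → ℤ) (n g q : I → ℕ), PairwiseIndep K →
      (∀ i φ, M i (ComplexEmbedding.conjugate φ) = M i φ) → (∀ i, n i ≠ 0) →
      (∀ i φ, M i φ ∣ (n i : ℤ)) → (∀ i, finrank ℚ (K i) = 2 * g i) →
      (∀ i, q i ∣ g i ∧ (q i = 1 ∨ (q i).Prime)) →
      ((exceptionalFamilies ν K M).ncard : ℝ) ≤
        2 ^ (∑ i, g i) * ∑ i, C * (n i : ℝ) ^ 2 * rate (K i) (g i) (q i)) ∧
    WeightEstimate := by
  obtain ⟨C, hC0, hC⟩ := slope families_holds
  refine ⟨⟨C, hC0, ?_⟩, weight_estimate_holds⟩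
  intro p _ ν I _ K _ _ _ M n g q hind hM hn hMn hg hq
  exact hC p ν I K M n g q hind hM hn hMn hg hq _ fun Φ h => holds_of K M Φ h

end Pool.Agent.Results.MP_62d77c_ag.FibresAllCMFields
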