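import Pool.Agent.R937.PZ.Mot
import Pool.Agent.R900.BB.Main

/-!
# Cohomologically trivial cycles orthogonal to fibral cycles: fibres generated by abelian varieties of
# dimension at most five, and by products of elliptic curves, abelian surfaces and non-ordinary threefolds

Let `X` be a smooth proper variety of dimension `d` over a number field `E`, and let `𝒳` be a regular
proper flat model of `X` over the ring of integers, with the fibres `Y v` over the closed points `v`;
let `i + a = d + 1`.

**Theorem.** Suppose that for all of the finitely many `v` for which `Y v` is not smooth

* the conjecture of the monodromy weight filtration holds for `H^(2 i - 1)(X)` at `v`; this is known if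
  `X` is an abelian variety, a product of curves, a complete intersection in a projective space
  (Scholze), or if `i = 1` or `i = d`; and
* the scheme `Y v` (over a finite field) belongs to the class `𝒢` described below.

Then all cohomologically trivial cycles in `Ch^i(X)` extend to cycles in `Ch^i(𝒳)` that are orthogonal
to all cycles in `Ch^a(𝒳)` which are supported in closed fibres: Q1 has a positive answer for `𝒳` and `i`.

An abelian variety over the field with `p ^ a` elements is modelled by `RedAV` (Honda, Tate): a
finite product of CM types `(E i, Φ i)` with Weil numbers `π i ∈ E i` that satisfy the formula of
Shimura and Taniyama; its cohomology of degree `n`, with coefficients in an algebraically closed field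
`Ω`, consists of the alternating `n`-forms on the Tate module `Ω ⊗ H_1`, on which the Frobenius
endomorphism acts by `π`.

We consider (`IsGoodAVP`) the abelian varieties `Y` of the following kinds:

* all abelian varieties of dimension at most five;
* the abelian varieties that are isogenous, over an algebraic closure, to a product of a supersingular
  abelian variety of any dimension and of abelian varieties of dimension at most three (any number, any
  multiplicity), such that any two factors of dimension three whose CM fields have the same Galois
  closure satisfy one of the following: their fields are Galois over `ℚ`; one of them is supersingular;
  they are isogenous; **neither of them is ordinary and their `p`-ranks are not `{1, 2}`**.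

So `Y` may be any product of elliptic curves, of abelian surfaces and of abelian threefolds that all
have `p`-rank two, or that all have `p`-rank zero or one; nonisogenous threefolds with the same CM field,
or with different CM fields with the same Galois closure, are allowed. The theorem in the starting files
(`tb_goodS`, for `IsGoodAVS`) excludes two nonisogenous threefolds that are not supersingular and whose
CM fields have the same Galois closure, unless these fields are Galois over `ℚ`.

`Homology Ω V` are data of motivic homology `M X n j = H_n^M(X, ℚ(j)) = CH_j(X, n - 2 j) ⊗ ℚ` (higher
Chow groups) and of `ℓ`-adic homology `E X n j = H_n(X, ℚ_ℓ(j))` of schemes `X : V` of finite type over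
finite fields, with the Frobenius and the regulator. Let `𝒢` (`Generated`) be the smallest class of
schemes that contains those with the homology groups of the abelian varieties above, that is closed
under direct summands of finite sums of twists of motives, and that contains all of a closed subscheme
`Z` of `X`, `X` and `X ∖ Z` if it contains two of them. For example, it contains all products of curves
of genus at most two, symmetric powers of such products, the varieties dominated by an abelian variety
of dimension at most five whose motive is a direct summand, and the open and the singular varieties
that are stratified by such varieties.

Examples. Let `X` be an abelian variety over a number field that is large enough, and `𝒳` a regular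
projective model of the kind constructed by Künnemann (from the theory of Mumford, Faltings and Chai) at
the places of bad reduction. A bad fibre has a stratification whose strata are torus bundles over the
abelian part `B v` of the reduction, so it is in `𝒢` if `B v` is. So the theorem applies, for all `i`, to
**all
abelian varieties of dimension at most six**, to all abelian varieties for which all `B v` have dimension
at most five, and to all products of elliptic curves and abelian surfaces. If the abelian parts of the
bad reductions are products of elliptic curves, surfaces and threefolds of `p`-rank two (or of threefolds
of `p`-rank zero or one) the theorem also applies. At the places of good reduction nothing is assumed. Other examples are products of curves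
with semistable reduction, with the models of Gross and Schoen, whose bad fibres are stratified by torus
bundles over products of the normalized components of the reductions of the curves.

Formulation. `A` is `CH^i(𝒳) ⊗ ℚ`, `triv` are the cycles whose restriction to `X` is cohomologically
trivial, `push v` is the map `CH_a(Y v) → CH^i(𝒳)`, and `num v x z` is the intersection number of `x`
with `z` in `CH_i(Y v)`. Since `log N(v) * num v x z` is the value of the pairing of Gillet and Soulé, and
`Ch^a_fin(𝒳)` is generated by the images of the groups `CH_i(Y v)`, the cycle `y` in the theorem, which has
the same restriction to `X` as `x`, is in the orthogonal complement of `Ch^a_fin(𝒳)`. `HasForm` are the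
properties of the intersection form of `Y v`; its last property, that `num v x z` is zero if the class of
`z` is zero in `H^(2 a)(Y v)` and `x` is in `triv`, is derived from the localisation sequence, the
projection formula and the weight-monodromy conjecture in `hasForm`, `Pool/Agent/R900/BB/Main.lean`
(compare the file `TateFibres`, where all this is part of the statement). For smooth `Y v` the
intersection numbers `num v x z` are zero for all `x` in `triv` by smooth specialization.

The case of models with good reduction everywhere is listed as known. For `i = 1` and `i = d` the
assertion is classical. In general it was expected to follow from the conjecture of Tate for the homology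
of the fibres and the weight-monodromy conjecture (Beilinson). The injectivity of cycle class maps and
the finite generation of the Chow groups of the fibres are not needed.

Properties of the theory of cycles that are used for the abelian varieties `Y` (`IsChowS`,
`IsMotivic`): Poincaré duality, the formal properties of correspondences, the nilpotence of
homologically trivial correspondences (Kimura), the operation of the Frobenius endomorphism on higher
Chow groups, the vanishing of the higher rational `K`-groups of a finite field (Quillen), and the
algebraicity of the classes in `AlgS` (theorems of Tate, Markman and Ramón Marí). All Tate classes on all
powers of `Y` are in `AlgS`: this is `Pool.Agent.R937.PG.main` (in `Pool/Agent/R937/PZ`), which is not in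
the starting files. The passage from the Tate conjecture to all degrees and to the class `𝒢` is due to
Soulé, Geisser, Kahn and Jannsen.
-/

set_option autoImplicit false

namespace Pool.Agent.Results.MP_62d77c_ag.FibresNonOrdinaryThreefolds

open Pool.Agent.W495.TA Pool.Agent.W495.FM Pool.Agent.R937.PG Pool.Agent.R900.BB

/-- Cohomologically trivial cycles extend to cycles orthogonal to fibral cycles, if the fibres which are
not smooth belong to the class generated by abelian varieties of dimension at most five and by products
of elliptic curves, abelian surfaces and non-ordinary threefolds. -/
theorem result (P : Type) (Ω V : P → Type) [∀ v, Field (Ω v)] [∀ v, IsAlgClosed (Ω v)]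
    [∀ v, CharZero (Ω v)] (T : ∀ v, Homology (Ω v) (V v)) (hT : ∀ v, IsHomology (T v))
    (Y : ∀ v, V v) (i a : ℤ) (A : Type) [AddCommGroup A] [Module ℚ A]
    (push : ∀ v, (T v).M (Y v) (2 * a) a → A) (num : ∀ v, A → (T v).M (Y v) (2 * i) i → ℚ)
    (triv : A → Prop) (htr : ∀ v f x, triv x → triv (x + push v f))
    (hnum : ∀ v, IsBilin ℚ (num v)) (hne : ∀ v w, v ≠ w → ∀ f z, num w (push v f) z = 0)
    (bad : Set P) (hbad : bad.Finite) (hgood : ∀ v, v ∉ bad → ∀ x z, triv x → num v x z = 0)
    (hcl : ∀ v ∈ bad, HasForm (T v) (Y v) i a (num v) (push v) triv)
    (hY : ∀ v ∈ bad, ∃ (p : ℕ) (_ : Fact p.Prime) (ν : PadicAlgCl p ≃+* ℂ),
      Generated (T v) (IsGoodAbelianP p ν (T v)) (Y v)) (x : A) (hx : triv x) :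
    ∃ y, y - x ∈ Submodule.span ℚ (⋃ v, Set.range (push v)) ∧ ∀ v z, num v y z = 0 :=
  exists_orthogonal hT htr hnum hne hbad hgood hcl (fun v hv => by
    obtain ⟨p, _, ν, h⟩ := hY v hv
    exact ((tb_goodP (hT v) h).iso (hT v) a).1) hx

end Pool.Agent.Results.MP_62d77c_ag.FibresNonOrdinaryThreefolds
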