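import Pool.Agent.TH117.GN.Wt
import Pool.Agent.TH117.GN.Defs2
import Pool.Agent.R900.BB.Main

/-!
# Cohomologically trivial cycles orthogonal to fibral cycles: fibres generated by powers of the factors of
# abelian varieties of dimension at most five

Let `X` be a smooth proper variety of dimension `d` over a number field `E`, and let `𝒳` be a regular
proper flat model of `X` over the ring of integers, with the fibres `Y v` over the closed points `v`;
let `i + a = d + 1`.

**Theorem.** Suppose that for all of the finitely many `v` for which `Y v` is not smooth

* the conjecture of the monodromy weight filtration holds for `H^(2 i - 1)(X)` at `v`; this is known if
  `X` is an abelian variety, a product of curves, a complete intersection in a projective space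
  (Scholze), or if `i = 1` or `i = d`; and
* the scheme `Y v` (over a finite field) belongs to the class `𝒢` described below.

Then all cohomologically trivial cycles in `Ch^i(X)` extend to cycles in `Ch^i(𝒳)` that are orthogonal
to all cycles in `Ch^a(𝒳)` which are supported in closed fibres: Q1 has a positive answer for `𝒳` and `i`.

An abelian variety over the field with `p ^ a` elements is modelled by `RedAV` (Honda, Tate): a
finite product of CM types `(E i, Φ i)` with Weil numbers `π i ∈ E i` that satisfy the formula of
Shimura and Taniyama; its cohomology of degree `n`, with coefficients in an algebraically closed field
`Ω`, consists of the alternating `n`-forms on the Tate module `Ω ⊗ H_1`, on which the Frobenius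
endomorphism acts by `π`.

We consider (`IsGood`) all abelian varieties `Y` that are isogenous, over an algebraic closure, to a
product of powers of the factors of an abelian variety `Z'` and of a supersingular abelian variety of any
dimension, where one of the following holds (with any Newton polygons):

* the dimension of `Z'` is at most five, and no two factors of `Z'` form an exceptional pair: two
  non-Galois quartic CM fields with the same Galois closure, or CM fields of degrees 2 and 8, with a
  special relation between the Frobenius eigenvalues (`IsExceptionalPair`);
* the factors of `Z'` (in any number) have dimension at most three, and two factors whose CM fields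
  have the same Galois closure are isogenous, unless these fields are Galois over `ℚ` or one of the
  two factors is supersingular.

For example `Y` may be any power of a simple abelian variety of dimension four or five.

`Homology Ω V` are data of motivic homology `M X n j = H_n^M(X, ℚ(j)) = CH_j(X, n - 2 j) ⊗ ℚ` (higher
Chow groups) and of `ℓ`-adic homology `E X n j = H_n(X, ℚ_ℓ(j))` of schemes `X : V` of finite type over
finite fields, with the Frobenius and the regulator. Let `𝒢` (`Generated`) be the smallest class of
schemes that contains those with the homology groups of the abelian varieties above, that is closed
under direct summands of finite sums of twists of motives, and that contains all of a closed subscheme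
`Z` of `X`, `X` and `X ∖ Z` if it contains two of them. For example, it contains all powers, and all
symmetric powers, of a curve of genus at most five whose Jacobian variety has no exceptional pair of
factors, and the open and the singular varieties that are stratified by such varieties.

Examples. Let `X` be an abelian variety over a number field that is large enough, and `𝒳` a regular
projective model of the kind constructed by Künnemann (from the theory of Mumford, Faltings and Chai) at
the places of bad reduction. A bad fibre has a stratification whose strata are torus bundles over the
abelian part `B v` of the reduction, so it is in `𝒢` if `B v` is. So the theorem applies, for all `i`, to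
all
abelian varieties for which all `B v` are in the above list, for instance powers of simple abelian
varieties of dimension at most five. At the places of good reduction nothing is assumed. Other examples are products of curves
with semistable reduction, with the models of Gross and Schoen, whose bad fibres are stratified by torus
bundles over products of the normalized components of the reductions of the curves.

Formulation. `A` is `CH^i(𝒳) ⊗ ℚ`, `triv` are the cycles whose restriction to `X` is cohomologically
trivial, `push v` is the map `CH_a(Y v) → CH^i(𝒳)`, and `num v x z` is the intersection number of `x`
with `z` in `CH_i(Y v)`. Since `log N(v) * num v x z` is the value of the pairing of Gillet and Soulé, and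
`Ch^a_fin(𝒳)` is generated by the images of the groups `CH_i(Y v)`, the cycle `y` in the theorem, which has
the same restriction to `X` as `x`, is in the orthogonal complement of `Ch^a_fin(𝒳)`. `HasForm` are the
properties of the intersection form of `Y v`; its last property, that `num v x z` is zero if the class of
`z` is zero in `H^(2 a)(Y v)` and `x` is in `triv`, is derived from the localisation sequence, the
projection formula and the weight-monodromy conjecture in `hasForm`, `Pool/Agent/R900/BB/Main.lean`
(compare the file `TateFibres`, where all this is part of the statement). For smooth `Y v` the
intersection numbers `num v x z` are zero for all `x` in `triv` by smooth specialization.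

The case of models with good reduction everywhere is listed as known. For `i = 1` and `i = d` the
assertion is classical. In general it was expected to follow from the conjecture of Tate for the homology
of the fibres and the weight-monodromy conjecture (Beilinson). The injectivity of cycle class maps and
the finite generation of the Chow groups of the fibres are not needed.

Properties of the theory of cycles that are used for the abelian varieties `Y` (`IsChow`,
`IsMotivic`): Poincaré duality, the formal properties of correspondences, the nilpotence of
homologically trivial correspondences (Kimura), the operation of the Frobenius endomorphism on higher
Chow groups, the vanishing of the higher rational `K`-groups of a finite field (Quillen), and the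
algebraicity of the classes in `Alg` (theorems of Tate and Markman). That all Tate classes on `Y` are in
`Alg` was proved in the starting files (helper117); the passage from the Tate conjecture to all degrees
and to the class `𝒢` is due to Soulé, Geisser, Kahn and Jannsen and was formalized there, too
(`tb_good2`, in `Pool/Agent/TH117/GN/Wt.lean`).
-/

set_option autoImplicit false

namespace Pool.Agent.Results.MP_62d77c_ag.FibresPowersOfFactors

open Pool.Agent.W495.FM Pool.Agent.TH117.GN Pool.Agent.R900.BB

/-- Cohomologically trivial cycles extend to cycles orthogonal to fibral cycles, if the fibres which are
not smooth belong to the class generated by the products of powers of the factors of abelian varieties of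
dimension at most five (or with factors of dimension at most three). -/
theorem result (P : Type) (Ω V : P → Type) [∀ v, Field (Ω v)] [∀ v, IsAlgClosed (Ω v)]
    [∀ v, CharZero (Ω v)] (T : ∀ v, Homology (Ω v) (V v)) (hT : ∀ v, IsHomology (T v))
    (Y : ∀ v, V v) (i a : ℤ) (A : Type) [AddCommGroup A] [Module ℚ A]
    (push : ∀ v, (T v).M (Y v) (2 * a) a → A) (num : ∀ v, A → (T v).M (Y v) (2 * i) i → ℚ)
    (triv : A → Prop) (htr : ∀ v f x, triv x → triv (x + push v f))
    (hnum : ∀ v, IsBilin ℚ (num v)) (hne : ∀ v w, v ≠ w → ∀ f z, num w (push v f) z = 0)
    (bad : Set P) (hbad : bad.Finite) (hgood : ∀ v, v ∉ bad → ∀ x z, triv x → num v x z = 0)
    (hcl : ∀ v ∈ bad, HasForm (T v) (Y v) i a (num v) (push v) triv)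
    (hY : ∀ v ∈ bad, ∃ (p : ℕ) (_ : Fact p.Prime) (ν : PadicAlgCl p ≃+* ℂ),
      Generated (T v) (IsGood p ν (T v)) (Y v)) (x : A) (hx : triv x) :
    ∃ y, y - x ∈ Submodule.span ℚ (⋃ v, Set.range (push v)) ∧ ∀ v z, num v y z = 0 :=
  exists_orthogonal hT htr hnum hne hbad hgood hcl (fun v hv => by
    obtain ⟨p, _, ν, h⟩ := hY v hv
    exact ((tb_good2 (hT v) h).iso (hT v) a).1) hx

end Pool.Agent.Results.MP_62d77c_ag.FibresPowersOfFactors
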