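import Pool.Agent.R900.BB.Known

/-!
# Cohomologically trivial cycles orthogonal to fibral cycles: fibres generated by Fermat varieties and by
# schemes that satisfy the conjecture of Tate

Let `X` be a smooth proper variety of dimension `d` over a number field `E`, and let `𝒳` be a regular
proper flat model of `X` over the ring of integers, with the fibres `Y v` over the closed points `v`;
let `i + a = d + 1`.

**Theorem.** Suppose that for all of the finitely many `v` for which `Y v` is not smooth

* the conjecture of the monodromy weight filtration holds for `H^(2 i - 1)(X)` at `v`; this is known if
  `X` is an abelian variety, a product of curves, a complete intersection in a projective space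
  (Scholze), or if `i = 1` or `i = d`; and
* the scheme `Y v` (over a finite field) belongs to the class `𝒮` described below.

Then all cohomologically trivial cycles in `Ch^i(X)` extend to cycles in `Ch^i(𝒳)` that are orthogonal
to all cycles in `Ch^a(𝒳)` which are supported in closed fibres: Q1 has a positive answer for `𝒳` and `i`.

The class `𝒮` (`Spread T (IsKnown T)`) is the smallest class of schemes over finite fields that contains

* the schemes generated, by direct summands of finite sums of twists of motives and by two out of three
  of a closed subscheme `Z` of `X`, `X` and `X ∖ Z`, by products of Fermat varieties of a degree `m` which is
  good for the characteristic `p` (`GoodDegree`): for instance the prime divisors of `m` lie in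
  `{2, 3, 5}`, or in `{2, 3, 7}`, or in `{2, q}` for a prime `q` congruent to seven modulo eight;
* the schemes for which in all dimensions the Tate classes are algebraic and the eigenvalue one of the
  Frobenius is semisimple, such as curves, cellular varieties, abelian varieties of dimension at most
  five and products of elliptic curves and abelian surfaces (see the starting helper lemma `tb_goodS`)

and that is closed under open subschemes (with an arbitrary complement), images under proper morphisms,
unions of a closed and an open member, and direct summands of sums of twists of motives.

Examples.

* Let `X` be a product of curves with semistable reduction, and `𝒳` a regular model as constructed by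
  Gross and Schoen. The bad fibres are stratified by bundles of tori over products of the normalized
  components of the reductions of the curves. The theorem applies, for all `i`, if all these components
  are Fermat curves of a good degree, or if all of them have genus at most two.
* Let `X` be an abelian variety over a number field that is large enough, and `𝒳` a regular projective
  model of the kind constructed by Künnemann (from the theory of Mumford, Faltings and Chai) at the places
  of bad reduction. A bad fibre has a stratification whose strata are torus bundles over the abelian part
  `B v` of the reduction. So the theorem applies, for all `i`, to all abelian varieties of dimension at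
  most six, and whenever all `B v` have dimension at most five. At the places of good reduction nothing
  is assumed.

The case of models with good reduction everywhere is listed as known. For `i = 1` and `i = d` the
assertion is classical. In general it was expected to follow from the conjecture of Tate for the homology
of the fibres and the weight-monodromy conjecture (Beilinson). The theorem is unconditional for the
fibres generated by products of Fermat varieties. Note that neither the injectivity of the cycle class
maps of the fibres nor the finite generation of their Chow groups is assumed.

The proof. Let `x` be any cycle on `𝒳` that extends the given one. One has to find `f` in `CH_a(Y v)`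
with `num x z = - num f z` for all `z` in `CH_i(Y v)`. The group `CH_i(Y v)` may be infinite, but by linear
algebra it suffices that `num x z = 0` for all `z` that are orthogonal to `CH_a(Y v)`. By the conjecture
of Tate and the semisimplicity the class of such a `z` in `H^(2 a)_Y(𝒳)` becomes zero in `H^(2 a)(Y)`. So
it comes from a class `n` in `H^(2 a - 1)(X)` over the maximal unramified extension, and the intersection
number is the cup product of `n` with the class of `x` in `H^(2 i)(X)`, which lies in the coinvariants of
`H^(2 i - 1)(X)(i - 1)` over the algebraic closure under the inertia group. By the weight-monodromy
conjecture these have positive weights, and the class is zero.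

The model. `T v` is the theory of motivic and of `ℓ`-adic homology (for a prime `ℓ` that may depend on `v`)
of schemes over finite fields; `CH_i(Y v) ⊗ ℚ` is `M (Y v) (2 i) i`. `Model`, `IsModel` and `IsGS` are the
data of the cycles on `𝒳` and `X` and their formal properties, with the pairing of Gillet and Soulé.
`Place`, `IsPlace` (in `HasClasses`) are the `ℓ`-adic cohomology groups of `X`, `𝒳` and `Y v` with purity, the
localisation sequence, cycle classes and duality, and `HasWM` is the weight-monodromy conjecture.
`IsGoodPlace` holds for smooth fibres `Y v` since the class of `x` in `H^(2 i)(Y v)` is zero by smooth
specialization. For the properties used for Fermat varieties (`IsCyc`, `HasLines`) see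
`Pool/Agent/R900/EX/Defs.lean` and `Pool/Agent/R900/EX/FermatDefs.lean`.
-/

set_option autoImplicit false

namespace Pool.Agent.Results.MP_62d77c_ag.TateFibres

open Pool.Agent.W495.FM Pool.Agent.R900.BB

/-- Cohomologically trivial cycles extend to cycles orthogonal to fibral cycles, if the fibres which are
not smooth belong to the class generated by products of Fermat varieties and by schemes which satisfy
the conjecture of Tate with semisimplicity, and if weight-monodromy holds. -/
theorem result (P : Type) (Ω V : P → Type) [∀ v, Field (Ω v)] [∀ v, CharZero (Ω v)]
    (T : ∀ v, Homology (Ω v) (V v)) (hT : ∀ v, IsHomology (T v)) (hW : ∀ v, HasWeights (T v))
    (Y : ∀ v, V v) (i a : ℤ) (M : Model T Y i a) (hM : IsModel M) (hg : IsGS M) (bad : Set P)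
    (hbad : bad.Finite) (hgood : ∀ v, v ∉ bad → IsGoodPlace M v)
    (hcl : ∀ v ∈ bad, HasClasses M v) (hY : ∀ v ∈ bad, Spread (T v) (IsKnown (T v)) (Y v)) :
    LiftsOrthogonally M :=
  lifts hT M hM hg bad hbad hgood hcl fun v hv => onto_of_spread (hT v) (hW v) (hY v hv) a

end Pool.Agent.Results.MP_62d77c_ag.TateFibres
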